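import Pool.Agent.Helper35.IL.Stm
import Pool.Agent.Helper58.MM.LOGB

/-! Package ENU of the project IL. -/

set_option autoImplicit false

namespace Pool.Agent.Helper58.IL

open Pool.Agent.Helper35.EM Module Submodule Set ComplexConjugate

/-- **Package ENU.** -/
theorem enu : Pool.Agent.Helper35.IL.S_ENU := by
  obtain ⟨w, e, h⟩ := Pool.Agent.Helper58.MM.logb
  refine ⟨w, h.w0, h.ind, fun i => (h.spn (w i)).1 (subset_span ⟨i, rfl⟩), fun i => ?_,
    fun z hz => (h.spn z).2 hz⟩
  rcases h.typ i with h1 | h1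
  · exact Or.inl h1.2
  · exact Or.inr h1.2

end Pool.Agent.Helper58.IL
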